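import Pool.Agent.Helper20.Glimm.Cells

/-!
Evaluation of cochains on the cube, on its boundary and on the upper half of the boundary.
-/

open Finset Function

namespace Pool.Agent.Helper20.Glimm

/-- cochains on the cells of one block -/
abbrev BC := (ℕ → ℤ) → ZMod 2

/-- summation over the values `a ∈ A` of the coordinate `n` -/
def S (n : ℕ) (A : Finset ℤ) : BC →+ BC where
  toFun F := fun x => ∑ a ∈ A, F (update x n a)
  map_zero' := by funext x; simp
  map_add' F G := by funext x; simp [sum_add_distrib]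

lemma S_apply (n : ℕ) (A : Finset ℤ) (F : BC) (x : ℕ → ℤ) :
    S n A F x = ∑ a ∈ A, F (update x n a) := rfl

/-- enumeration of the odd numbers above `-2L` -/
def oE (L : ℕ) : ℕ ↪ ℤ :=
  ⟨fun k : ℕ => (2 * k + 1 - 2 * L : ℤ), fun a b h => by simp only at h; omega⟩

lemma oE_apply (L k : ℕ) : oE L k = 2 * k + 1 - 2 * L := rfl

/-- enumeration of the odd numbers above `0` -/
def oP : ℕ ↪ ℤ := ⟨fun k : ℕ => (2 * k + 1 : ℤ), fun a b h => by simp only at h; omega⟩

lemma oP_apply (k : ℕ) : oP k = 2 * k + 1 := rfl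

/-- negation of integers -/
def nE : ℤ ↪ ℤ := ⟨fun a => -a, neg_injective⟩

lemma nE_apply (a : ℤ) : nE a = -a := rfl

/-- the odd numbers between `-2L` and `2L` -/
def O (L : ℕ) : Finset ℤ := (range (2 * L)).map (oE L)

/-- the odd numbers between `0` and `2L` -/
def Op (L : ℕ) : Finset ℤ := (range L).map oP

lemma mem_O {L : ℕ} {a : ℤ} : a ∈ O L ↔ Odd a ∧ |a| ≤ 2 * L := by
  simp only [O, mem_map, mem_range, oE_apply]
  constructor
  · rintro ⟨k, hk, rfl⟩
    refine ⟨⟨k - L, by ring⟩, ?_⟩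
    rw [abs_le]
    constructor <;> omega
  · rintro ⟨⟨k, rfl⟩, h⟩
    rw [abs_le] at h
    refine ⟨(k + L).toNat, ?_, ?_⟩ <;> omega

lemma mem_Op {L : ℕ} {a : ℤ} : a ∈ Op L ↔ Odd a ∧ 0 ≤ a ∧ a ≤ 2 * L := by
  simp only [Op, mem_map, mem_range, oP_apply]
  constructor
  · rintro ⟨k, hk, rfl⟩
    refine ⟨⟨k, by ring⟩, ?_⟩
    constructor <;> omega
  · rintro ⟨⟨k, rfl⟩, h⟩
    refine ⟨k.toNat, ?_, ?_⟩ <;> omega

lemma telescope (g : ℕ → ZMod 2) (n : ℕ) : ∑ k ∈ range n, (g (k + 1) + g k) = g n + g 0 := by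
  have := sum_range_sub g n
  simp only [CharTwo.sub_eq_add] at this
  exact this

lemma S_D_gen (n : ℕ) (A : Finset ℤ) (F : BC) (x : ℕ → ℤ) (hA : ∀ a ∈ A, Odd a) :
    S n A (D n F) x = ∑ a ∈ A, (F (update x n (a + 1)) + F (update x n (a - 1))) := by
  rw [S_apply]
  refine sum_congr rfl fun a ha => ?_
  simp only [D, update_self, update_idem, hA a ha, if_true]

lemma S_O_D (L n : ℕ) (F : BC) :
    S n (O L) (D n F) = S n {2 * (L : ℤ)} F + S n {-(2 * (L : ℤ))} F := by
  funext x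
  rw [S_D_gen n (O L) F x (fun a ha => (mem_O.1 ha).1)]
  simp only [Pi.add_apply, S_apply, sum_singleton]
  rw [O, sum_map]
  simp only [oE_apply]
  have := telescope (fun k : ℕ => F (update x n (2 * k - 2 * L))) (2 * L)
  have e1 : (2 * ((2 * L : ℕ) : ℤ) - 2 * L) = 2 * L := by push_cast; ring
  have e2 : (2 * ((0 : ℕ) : ℤ) - 2 * L) = - (2 * L) := by push_cast; ring
  rw [e1, e2] at this
  rw [← this]
  refine sum_congr rfl fun k _ => ?_
  have e3 : (2 * (k : ℤ) + 1 - 2 * L + 1) = 2 * ((k + 1 : ℕ) : ℤ) - 2 * L := by push_cast; ring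
  have e4 : (2 * (k : ℤ) + 1 - 2 * L - 1) = 2 * (k : ℤ) - 2 * L := by ring
  rw [e3, e4]

lemma S_Op_D (L n : ℕ) (F : BC) :
    S n (Op L) (D n F) = S n {2 * (L : ℤ)} F + S n {0} F := by
  funext x
  rw [S_D_gen n (Op L) F x (fun a ha => (mem_Op.1 ha).1)]
  simp only [Pi.add_apply, S_apply, sum_singleton]
  rw [Op, sum_map]
  simp only [oP_apply]
  have := telescope (fun k : ℕ => F (update x n (2 * k))) L
  have e2 : (2 * ((0 : ℕ) : ℤ)) = 0 := by simp
  rw [e2] at this
  rw [← this]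
  refine sum_congr rfl fun k _ => ?_
  have e3 : (2 * (k : ℤ) + 1 + 1) = 2 * ((k + 1 : ℕ) : ℤ) := by push_cast; ring
  have e4 : (2 * (k : ℤ) + 1 - 1) = 2 * (k : ℤ) := by ring
  rw [e3, e4]

lemma S_even_D (n : ℕ) (a : ℤ) (ha : ¬ Odd a) (F : BC) : S n {a} (D n F) = 0 := by
  funext x
  simp only [S_apply, sum_singleton, D, update_self, ha, if_false, Pi.zero_apply]

lemma S_D_ne {n i : ℕ} (h : i ≠ n) (A : Finset ℤ) (F : BC) : S n A (D i F) = D i (S n A F) := by
  funext x
  simp only [S_apply, D, update_of_ne h]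
  split_ifs
  · rw [← sum_add_distrib]
    refine sum_congr rfl fun a _ => ?_
    rw [update_comm h, update_comm h]
  · simp

lemma D_S_self (n : ℕ) (A : Finset ℤ) (F : BC) : D n (S n A F) = 0 := by
  funext x
  simp only [S_apply, D, update_idem, Pi.zero_apply]
  split_ifs
  · exact CharTwo.add_self_eq_zero _
  · rfl

lemma del_apply_eq (M : ℕ) (F : BC) : del (range M) F = ∑ i ∈ range M, D i F := by
  funext x
  simp [del]

lemma S_del {n M : ℕ} (h : n < M) (A : Finset ℤ) (F : BC) :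
    S n A (del (range M) F) = del (range M) (S n A F) + S n A (D n F) := by
  rw [del_apply_eq, del_apply_eq, map_sum, ← sum_erase_add _ _ (mem_range.2 h),
    ← sum_erase_add _ _ (mem_range.2 h), D_S_self, add_zero]
  congr 1
  refine sum_congr rfl fun i hi => ?_
  exact S_D_ne (mem_erase.1 hi).1 A F

/-- sum over the top dimensional cells of the `n`-cube -/
def I (L : ℕ) : ℕ → (BC →+ ZMod 2)
  | 0 => Pi.evalAddMonoidHom _ (0 : ℕ → ℤ)
  | n + 1 => (I L n).comp (S n (O L))

/-- sum over the boundary of the `n`-cube -/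
def Z (L : ℕ) : ℕ → (BC →+ ZMod 2)
  | 0 => 0
  | n + 1 => (Z L n).comp (S n (O L)) + (I L n).comp (S n {2 * (L : ℤ)} + S n {-(2 * (L : ℤ))})

/-- sum over the upper half of the boundary of the `n+1`-cube -/
def T (L : ℕ) (n : ℕ) : BC →+ ZMod 2 :=
  (Z L n).comp (S n (Op L)) + (I L n).comp (S n {2 * (L : ℤ)})

lemma I_zero (L : ℕ) (F : BC) : I L 0 F = F 0 := rfl
lemma I_succ (L n : ℕ) (F : BC) : I L (n + 1) F = I L n (S n (O L) F) := rfl
lemma Z_zero (L : ℕ) (F : BC) : Z L 0 F = 0 := rfl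
lemma Z_succ (L n : ℕ) (F : BC) : Z L (n + 1) F = Z L n (S n (O L) F) +
    I L n (S n {2 * (L : ℤ)} F + S n {-(2 * (L : ℤ))} F) := rfl
lemma T_eq (L n : ℕ) (F : BC) : T L n F = Z L n (S n (Op L) F) + I L n (S n {2 * (L : ℤ)} F) := rfl

lemma even2 (L : ℕ) : ¬ Odd (2 * (L : ℤ)) := by
  rw [Int.not_odd_iff_even]; exact even_two_mul _

lemma even2' (L : ℕ) : ¬ Odd (-(2 * (L : ℤ))) := by
  rw [odd_neg]; exact even2 L

lemma I_del (L : ℕ) {M : ℕ} : ∀ n, n ≤ M → ∀ F : BC, I L n (del (range M) F) = Z L n F := by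
  intro n
  induction n with
  | zero =>
    intro _ F
    rw [I_zero, Z_zero]
    simp [del, D]
  | succ n ih =>
    intro h F
    rw [I_succ, Z_succ, S_del (by omega), map_add, ih (by omega), S_O_D]

lemma Z_del (L : ℕ) {M : ℕ} : ∀ n, n ≤ M → ∀ F : BC, Z L n (del (range M) F) = 0 := by
  intro n
  induction n with
  | zero =>
    intro _ F
    rw [Z_zero]
  | succ n ih =>
    intro h F
    rw [Z_succ, S_del (by omega), map_add, ih (by omega), S_O_D, S_del (by omega), S_del (by omega),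
      S_even_D n _ (even2 L), S_even_D n _ (even2' L), add_zero, add_zero, ← del_add,
      I_del L n (by omega), zero_add]
    exact CharTwo.add_self_eq_zero _

/-- cells of the cube in the first `n` coordinates -/
def Cub (L n : ℕ) (b : ℕ → ℤ) : Prop := (∀ i, |b i| ≤ 2 * L) ∧ ∀ i, n ≤ i → b i = 0

lemma Cub.update {L n : ℕ} {b : ℕ → ℤ} (h : Cub L n b) {a : ℤ} (ha : |a| ≤ 2 * L) :
    Cub L (n + 1) (update b n a) := by
  refine ⟨fun i => ?_, fun i hi => ?_⟩
  · by_cases hin : i = n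
    · subst hin
      simpa using ha
    · rw [update_of_ne hin]
      exact h.1 i
  · rw [update_of_ne (by omega)]
    exact h.2 i (by omega)

lemma I_congr (L : ℕ) : ∀ n, ∀ F G : BC, (∀ b, Cub L n b → F b = G b) → I L n F = I L n G := by
  intro n
  induction n with
  | zero =>
    intro F G h
    rw [I_zero, I_zero]
    exact h 0 ⟨fun i => by simp, fun i _ => rfl⟩
  | succ n ih =>
    intro F G h
    rw [I_succ, I_succ]
    refine ih _ _ fun b hb => ?_
    rw [S_apply, S_apply]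
    exact sum_congr rfl fun a ha => h _ (hb.update (mem_O.1 ha).2)

lemma abs_two_mul (L : ℕ) : |(2 * (L : ℤ))| = 2 * L := abs_of_nonneg (by positivity)

lemma Z_congr (L : ℕ) : ∀ n, ∀ F G : BC,
    (∀ b, Cub L n b → (∃ i, i < n ∧ |b i| = 2 * L) → F b = G b) → Z L n F = Z L n G := by
  intro n
  induction n with
  | zero =>
    intro F G h
    rw [Z_zero, Z_zero]
  | succ n ih =>
    intro F G h
    rw [Z_succ, Z_succ]
    congr 1
    · refine ih _ _ fun b hb ⟨i, hi, hbi⟩ => ?_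
      rw [S_apply, S_apply]
      refine sum_congr rfl fun a ha => h _ (hb.update (mem_O.1 ha).2) ⟨i, by omega, ?_⟩
      rw [update_of_ne (by omega)]
      exact hbi
    · refine I_congr L n _ _ fun b hb => ?_
      simp only [Pi.add_apply, S_apply, sum_singleton]
      rw [h (update b n (2 * (L : ℤ))) (hb.update (by rw [abs_two_mul]))
        ⟨n, by omega, by rw [update_self, abs_two_mul]⟩,
        h (update b n (-(2 * (L : ℤ)))) (hb.update (by rw [abs_neg, abs_two_mul]))
        ⟨n, by omega, by rw [update_self, abs_neg, abs_two_mul]⟩]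

lemma T_congr (L : ℕ) (n : ℕ) (F G : BC)
    (h : ∀ b, Cub L (n + 1) b → (∃ i, i < n + 1 ∧ |b i| = 2 * L) → F b = G b) :
    T L n F = T L n G := by
  rw [T_eq, T_eq]
  congr 1
  · refine Z_congr L n _ _ fun b hb ⟨i, hi, hbi⟩ => ?_
    rw [S_apply, S_apply]
    refine sum_congr rfl fun a ha => h _ (hb.update ?_) ⟨i, by omega, ?_⟩
    · obtain ⟨_, h1, h2⟩ := mem_Op.1 ha
      rw [abs_of_nonneg h1]
      exact h2
    · rw [update_of_ne (by omega)]
      exact hbi
  · refine I_congr L n _ _ fun b hb => ?_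
    simp only [S_apply, sum_singleton]
    rw [h (update b n (2 * (L : ℤ))) (hb.update (by rw [abs_two_mul]))
        ⟨n, by omega, by rw [update_self, abs_two_mul]⟩]

lemma T_del (L : ℕ) {M : ℕ} (n : ℕ) (h : n < M) (F : BC) : T L n (del (range M) F) = Z L n F := by
  rw [T_eq, S_del h, map_add, Z_del L n h.le, S_Op_D, S_del h, S_even_D n _ (even2 L), add_zero,
    I_del L n h.le, map_add, zero_add]
  have : Z L n (S n {0} F) = Z L n F := by
    refine Z_congr L n _ _ fun b hb _ => ?_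
    rw [S_apply, sum_singleton]
    congr 1
    rw [update_eq_self_iff]
    exact (hb.2 n le_rfl).symm
  rw [this]
  have h2 := CharTwo.add_self_eq_zero (Z L n (S n {2 * (L : ℤ)} F))
  linear_combination h2

/-- composition with the negation -/
def ng : BC →+ BC where
  toFun F := fun x => F (-x)
  map_zero' := rfl
  map_add' _ _ := rfl

lemma ng_apply (F : BC) (x : ℕ → ℤ) : ng F x = F (-x) := rfl

lemma neg_update (x : ℕ → ℤ) (n : ℕ) (a : ℤ) : -(update x n a) = update (-x) n (-a) := by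
  funext i
  by_cases h : i = n
  · subst h; simp
  · simp [update_of_ne h]

lemma S_ng (n : ℕ) (a : ℤ) (F : BC) : S n {a} (ng F) = ng (S n {-a} F) := by
  funext x
  simp only [S_apply, ng_apply, sum_singleton, neg_update]

lemma S_O_ng (L n : ℕ) (F : BC) : S n (O L) (ng F) = ng (S n (O L) F) := by
  funext x
  simp only [S_apply, ng_apply, neg_update]
  refine sum_bij' (fun a _ => -a) (fun a _ => -a) ?_ ?_ ?_ ?_ ?_
  · intro a ha
    rw [mem_O] at ha ⊢
    rw [odd_neg, abs_neg]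
    exact ha
  · intro a ha
    rw [mem_O] at ha ⊢
    rw [odd_neg, abs_neg]
    exact ha
  · intro a _; simp
  · intro a _; simp
  · intro a _; rfl

lemma S_Op_ng (L n : ℕ) (F : BC) :
    S n (O L) F = S n (Op L) F + ng (S n (Op L) (ng F)) := by
  funext x
  simp only [S_apply, ng_apply, neg_update, Pi.add_apply, neg_neg]
  have hO : O L = Op L ∪ (Op L).map nE := by
    ext a
    simp only [mem_union, mem_map, nE_apply, mem_O, mem_Op]
    constructor
    · rintro ⟨h1, h2⟩
      rw [abs_le] at h2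
      rcases le_total 0 a with h | h
      · exact Or.inl ⟨h1, h, h2.2⟩
      · exact Or.inr ⟨-a, ⟨odd_neg.2 h1, by omega, by omega⟩, by simp⟩
    · rintro (⟨h1, h2, h3⟩ | ⟨b, ⟨h1, h2, h3⟩, rfl⟩)
      · exact ⟨h1, by rw [abs_of_nonneg h2]; exact h3⟩
      · exact ⟨odd_neg.2 h1, by rw [abs_neg, abs_of_nonneg h2]; exact h3⟩
  have hd : Disjoint (Op L) ((Op L).map nE) := by
    rw [disjoint_left]
    intro a ha hb
    simp only [mem_map, nE_apply, mem_Op] at ha hb
    obtain ⟨h1, h2, h3⟩ := ha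
    obtain ⟨b, ⟨h4, h5, h6⟩, rfl⟩ := hb
    obtain ⟨k, hk⟩ := h1
    omega
  rw [hO, sum_union hd, sum_map]
  rfl

lemma I_ng (L : ℕ) : ∀ n (F : BC), I L n (ng F) = I L n F := by
  intro n
  induction n with
  | zero =>
    intro F
    rw [I_zero, I_zero, ng_apply, neg_zero]
  | succ n ih =>
    intro F
    rw [I_succ, I_succ, S_O_ng, ih]

lemma Z_ng (L : ℕ) : ∀ n (F : BC), Z L n (ng F) = Z L n F := by
  intro n
  induction n with
  | zero =>
    intro F
    rw [Z_zero, Z_zero]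
  | succ n ih =>
    intro F
    rw [Z_succ, Z_succ, S_O_ng, ih, S_ng, S_ng, ← map_add, I_ng, neg_neg, add_comm (S n {-(2 * (L : ℤ))} F)]

lemma ng_ng (F : BC) : ng (ng F) = F := by
  funext x
  simp [ng_apply]

lemma Z_succ_eq (L n : ℕ) (F : BC) : Z L (n + 1) F = T L n F + T L n (ng F) := by
  rw [Z_succ, T_eq, T_eq, S_Op_ng, map_add, Z_ng, S_ng, I_ng, map_add]
  ring

lemma T_zero_one (L : ℕ) : T L 0 (fun _ => 1) = 1 := by
  rw [T_eq, Z_zero, I_zero, zero_add, S_apply]
  simp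

lemma map_const (φ : BC →+ ZMod 2) (v : ZMod 2) : φ (fun _ => v) = v * φ (fun _ => 1) := by
  have : v = 0 ∨ v = 1 := by revert v; decide
  rcases this with rfl | rfl
  · rw [zero_mul]
    exact map_zero φ
  · rw [one_mul]

lemma ng_one : ng (fun _ => 1) = fun _ => 1 := rfl

lemma Z_one (L n : ℕ) : Z L n (fun _ => 1) = 0 := by
  cases n with
  | zero => rfl
  | succ n =>
    rw [Z_succ_eq, ng_one]
    exact CharTwo.add_self_eq_zero _

lemma S_one (n : ℕ) (A : Finset ℤ) : S n A (fun _ => 1) = fun _ => (A.card : ZMod 2) := by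
  funext x
  rw [S_apply]
  simp

lemma card_O (L : ℕ) : ((O L).card : ZMod 2) = 0 := by
  rw [O, card_map, card_range]
  push_cast
  rw [show (2 : ZMod 2) = 0 from rfl, zero_mul]

lemma I_succ_one (L n : ℕ) : I L (n + 1) (fun _ => 1) = 0 := by
  rw [I_succ, S_one, map_const, card_O, zero_mul]

lemma T_succ_one (L n : ℕ) : T L (n + 1) (fun _ => 1) = 0 := by
  rw [T_eq, S_one, S_one, map_const, Z_one, map_const, I_succ_one]
  simp

end Pool.Agent.Helper20.Glimm
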