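import Mathlib

/-!
Mod 2 cochains on the integer grid: a cell is an integer vector, the odd coordinates are the
edge directions.
-/

open Finset Function

namespace Pool.Agent.Helper20.Glimm

section generic

variable {ι : Type*} [DecidableEq ι]

/-- the contribution of the coordinate `i` to the coboundary -/
def D (i : ι) (F : (ι → ℤ) → ZMod 2) : (ι → ℤ) → ZMod 2 := fun x =>
  if Odd (x i) then F (update x i (x i + 1)) + F (update x i (x i - 1)) else 0

/-- coboundary -/
def del (s : Finset ι) (F : (ι → ℤ) → ZMod 2) : (ι → ℤ) → ZMod 2 := fun x =>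
  ∑ i ∈ s, D i F x

lemma D_self (i : ι) (F : (ι → ℤ) → ZMod 2) : D i (D i F) = 0 := by
  funext x
  simp only [D, update_self, Pi.zero_apply]
  by_cases h : Odd (x i)
  · have h1 : ¬ Odd (x i + 1) := by
      rw [Int.not_odd_iff_even]; exact h.add_one
    have h2 : ¬ Odd (x i - 1) := by
      rw [Int.not_odd_iff_even]; exact h.sub_odd odd_one
    simp [h, h1, h2]
  · simp [h]

lemma D_comm {i j : ι} (hij : i ≠ j) (F : (ι → ℤ) → ZMod 2) : D i (D j F) = D j (D i F) := by
  funext x
  have hji := hij.symm
  simp only [D, update_of_ne hij, update_of_ne hji]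
  by_cases h : Odd (x i) <;> by_cases h' : Odd (x j) <;> simp only [h, h', if_true, if_false, add_zero]
  rw [update_comm hij, update_comm hij, update_comm hij, update_comm hij]
  ring

lemma D_one (i : ι) : D i (fun _ => (1 : ZMod 2)) = 0 := by
  funext x
  simp only [D, Pi.zero_apply]
  split_ifs
  · decide
  · rfl

lemma D_add (i : ι) (F G : (ι → ℤ) → ZMod 2) : D i (F + G) = D i F + D i G := by
  funext x
  simp only [D, Pi.add_apply]
  split_ifs
  · ring
  · simp

lemma D_sum {κ : Type*} (i : ι) (s : Finset κ) (F : κ → (ι → ℤ) → ZMod 2) :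
    D i (fun x => ∑ k ∈ s, F k x) = fun x => ∑ k ∈ s, D i (F k) x := by
  funext x
  simp only [D]
  split_ifs
  · rw [sum_add_distrib]
  · simp

lemma D_smul (i : ι) (v : ZMod 2) (F : (ι → ℤ) → ZMod 2) :
    D i (fun x => v * F x) = fun x => v * D i F x := by
  funext x
  simp only [D]
  split_ifs
  · ring
  · simp

lemma del_one (s : Finset ι) : del s (fun _ => (1 : ZMod 2)) = 0 := by
  funext x
  simp [del, D_one]

lemma del_add (s : Finset ι) (F G : (ι → ℤ) → ZMod 2) : del s (F + G) = del s F + del s G := by
  funext x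
  simp [del, D_add, sum_add_distrib]

lemma del_zero (s : Finset ι) : del s (fun _ => (0 : ZMod 2)) = 0 := by
  funext x
  simp [del, D]

lemma del_smul (s : Finset ι) (v : ZMod 2) (F : (ι → ℤ) → ZMod 2) :
    del s (fun x => v * F x) = fun x => v * del s F x := by
  funext x
  simp [del, D_smul, mul_sum]

lemma sum_sum_symm {κ : Type*} [DecidableEq κ] (s : Finset κ) (f : κ → κ → ZMod 2)
    (h0 : ∀ i, f i i = 0) (h1 : ∀ i j, i ≠ j → f i j = f j i) :
    ∑ i ∈ s, ∑ j ∈ s, f i j = 0 := by
  induction s using Finset.induction_on with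
  | empty => simp
  | insert a s ha ih =>
    rw [sum_insert ha]
    rw [sum_insert ha]
    have : ∑ x ∈ s, ∑ j ∈ insert a s, f x j = ∑ x ∈ s, f x a + ∑ x ∈ s, ∑ j ∈ s, f x j := by
      rw [← sum_add_distrib]
      refine sum_congr rfl fun x hx => ?_
      rw [sum_insert ha]
    rw [this, ih, h0, zero_add, add_zero]
    have h2 : ∑ x ∈ s, f x a = ∑ x ∈ s, f a x := by
      refine sum_congr rfl fun x hx => h1 _ _ ?_
      rintro rfl
      exact ha hx
    rw [h2]
    exact CharTwo.add_self_eq_zero _

lemma del_del (s : Finset ι) (F : (ι → ℤ) → ZMod 2) : del s (del s F) = 0 := by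
  funext x
  have h : ∀ i, D i (del s F) x = ∑ j ∈ s, D i (D j F) x := by
    intro i
    have := congrFun (D_sum i s (fun j => D j F)) x
    exact this
  have h2 : del s (del s F) x = ∑ i ∈ s, ∑ j ∈ s, D i (D j F) x :=
    sum_congr rfl fun i _ => h i
  rw [h2]
  refine sum_sum_symm s (fun i j => D i (D j F) x) ?_ ?_
  · intro i
    simp [D_self]
  · intro i j hij
    simp only [D_comm hij]

/-- hereditary predicates: stable under passage to faces -/
def Her (s : Finset ι) (P : (ι → ℤ) → Prop) : Prop :=
  ∀ c, P c → ∀ i ∈ s, Odd (c i) → P (update c i (c i + 1)) ∧ P (update c i (c i - 1))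

lemma del_congr {s : Finset ι} {P : (ι → ℤ) → Prop} (hP : Her s P) {F G : (ι → ℤ) → ZMod 2}
    (h : ∀ c, P c → F c = G c) : ∀ c, P c → del s F c = del s G c := by
  intro c hc
  refine sum_congr rfl fun i hi => ?_
  simp only [D]
  split_ifs with ho
  · rw [h _ (hP c hc i hi ho).1, h _ (hP c hc i hi ho).2]
  · rfl

/-- change the signs of the coordinates in `q` -/
def fl (q : ι → Prop) [DecidablePred q] (c : ι → ℤ) : ι → ℤ := fun p => if q p then - c p else c p

lemma D_fl (q : ι → Prop) [DecidablePred q] (i : ι) (F : (ι → ℤ) → ZMod 2) (c : ι → ℤ) :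
    D i (fun c => F (fl q c)) c = D i F (fl q c) := by
  by_cases hq : q i
  · have e : fl q c i = - c i := by simp [fl, hq]
    have e1 : fl q (update c i (c i + 1)) = update (fl q c) i (fl q c i - 1) := by
      funext p
      by_cases hp : p = i
      · subst hp
        simp [fl, hq]
        ring
      · simp [fl, update_of_ne hp]
    have e2 : fl q (update c i (c i - 1)) = update (fl q c) i (fl q c i + 1) := by
      funext p
      by_cases hp : p = i
      · subst hp
        simp [fl, hq]
        ring
      · simp [fl, update_of_ne hp]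
    simp only [D]
    rw [e1, e2]
    simp only [e, odd_neg]
    split_ifs
    · rw [add_comm]
    · rfl
  · have e : fl q c i = c i := by simp [fl, hq]
    have e1 : fl q (update c i (c i + 1)) = update (fl q c) i (fl q c i + 1) := by
      funext p
      by_cases hp : p = i
      · subst hp
        simp [fl, hq]
      · simp [fl, update_of_ne hp]
    have e2 : fl q (update c i (c i - 1)) = update (fl q c) i (fl q c i - 1) := by
      funext p
      by_cases hp : p = i
      · subst hp
        simp [fl, hq]
      · simp [fl, update_of_ne hp]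
    simp only [D]
    rw [e1, e2, e]

lemma del_fl (s : Finset ι) (q : ι → Prop) [DecidablePred q] (F : (ι → ℤ) → ZMod 2) (c : ι → ℤ) :
    del s (fun c => F (fl q c)) c = del s F (fl q c) := by
  simp only [del, D_fl]

/-- the iterated cup product of the coboundaries of the labels -/
def Phi (s : Finset ι) : List ((ι → ℤ) → ZMod 2) → (ι → ℤ) → ZMod 2
  | [] => fun _ => 1
  | l :: ls => del s (fun c => l c * Phi s ls c)

lemma del_Phi (s : Finset ι) (ls : List ((ι → ℤ) → ZMod 2)) : del s (Phi s ls) = 0 := by
  cases ls with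
  | nil => exact del_one s
  | cons l ls => exact del_del s _

lemma Phi_const (s : Finset ι) {P : (ι → ℤ) → Prop} (hP : Her s P) (l : (ι → ℤ) → ZMod 2)
    (v : ZMod 2) (hl : ∀ c, P c → l c = v) :
    ∀ ls : List ((ι → ℤ) → ZMod 2), l ∈ ls → ∀ c, P c → Phi s ls c = 0 := by
  intro ls
  induction ls with
  | nil => intro h; simp at h
  | cons l' ls ih =>
    intro h c hc
    simp only [Phi]
    rcases List.mem_cons.1 h with h | h
    · subst h
      rw [del_congr hP (G := fun c => v * Phi s ls c) (fun c hc => by rw [hl c hc]) c hc,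
        del_smul, del_Phi]
      simp
    · rw [del_congr hP (G := fun c => 0) (fun c hc => by rw [ih h c hc, mul_zero]) c hc,
        del_zero]
      rfl

lemma Phi_fl (s : Finset ι) {P : (ι → ℤ) → Prop} (hP : Her s P) (q : ι → Prop) [DecidablePred q] :
    ∀ ls : List ((ι → ℤ) → ZMod 2),
      (∀ l ∈ ls, ∃ v : ZMod 2, ∀ c, P c → l (fl q c) = l c + v) →
      ∀ c, P c → Phi s ls (fl q c) = Phi s ls c := by
  intro ls
  induction ls with
  | nil => intro _ c _; rfl
  | cons l ls ih =>
    intro h c hc
    have ih' := ih (fun l' hl' => h l' (List.mem_cons_of_mem _ hl'))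
    obtain ⟨v, hv⟩ := h l (List.mem_cons_self)
    simp only [Phi]
    rw [← del_fl]
    rw [del_congr hP (G := (fun c => l c * Phi s ls c) + (fun c => v * Phi s ls c))
      (fun c hc => by
        rw [hv c hc, ih' c hc]
        simp only [Pi.add_apply]
        ring) c hc]
    rw [del_add, del_smul, del_Phi]
    simp

end generic

end Pool.Agent.Helper20.Glimm
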