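import Pool.Agent.Helper20.Glimm.Block

/-!
Products of blocks, and the evaluation of iterated cup products.
-/

open Finset Function

namespace Pool.Agent.Helper20.Glimm

/-- cells of the product -/
abbrev Cell := ℕ × ℕ → ℤ

/-- cochains on the product -/
abbrev CC := Cell → ZMod 2

/-- replace the block `j` of `c` by `b` -/
def rep (c : Cell) (j : ℕ) (b : ℕ → ℤ) : Cell := fun p => if p.1 = j then b p.2 else c p

/-- the block `j` of a cell -/
def blk (c : Cell) (j : ℕ) : ℕ → ℤ := fun i => c (j, i)

/-- change the sign of the block `j` -/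
def flip (j : ℕ) (c : Cell) : Cell := fl (fun p : ℕ × ℕ => p.1 = j) c

/-- product of functionals on blocks -/
def W (Tf : ℕ → (BC →+ ZMod 2)) (x0 : Cell) : ℕ → (CC →+ ZMod 2)
  | 0 => Pi.evalAddMonoidHom _ x0
  | N + 1 =>
    { toFun := fun F => W Tf x0 N (fun c => Tf N (fun b => F (rep c N b)))
      map_zero' := by
        have : (fun c : Cell => Tf N (fun b => (0 : CC) (rep c N b))) = 0 := by
          funext c
          exact map_zero (Tf N)
        rw [this, map_zero]
      map_add' := fun F G => by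
        have : (fun c : Cell => Tf N (fun b => (F + G) (rep c N b))) =
            (fun c : Cell => Tf N (fun b => F (rep c N b))) +
            (fun c : Cell => Tf N (fun b => G (rep c N b))) := by
          funext c
          exact map_add (Tf N) _ _
        rw [this, map_add] }

lemma W_zero (Tf : ℕ → (BC →+ ZMod 2)) (x0 : Cell) (F : CC) : W Tf x0 0 F = F x0 := rfl

lemma W_succ (Tf : ℕ → (BC →+ ZMod 2)) (x0 : Cell) (N : ℕ) (F : CC) :
    W Tf x0 (N + 1) F = W Tf x0 N (fun c => Tf N (fun b => F (rep c N b))) := rfl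

lemma W_ext (Tf Tf' : ℕ → (BC →+ ZMod 2)) (x0 : Cell) :
    ∀ N, (∀ j < N, Tf j = Tf' j) → W Tf x0 N = W Tf' x0 N := by
  intro N
  induction N with
  | zero => intro _; rfl
  | succ N ih =>
    intro h
    ext F
    rw [W_succ, W_succ, ih (fun j hj => h j (by omega)), h N (by omega)]

lemma W_update_ge (Tf : ℕ → (BC →+ ZMod 2)) (x0 : Cell) (N : ℕ) (φ : BC →+ ZMod 2) :
    W (update Tf N φ) x0 N = W Tf x0 N :=
  W_ext _ _ _ _ fun j hj => update_of_ne (by omega) _ _

/-- coboundary in the block `j` -/
def delj (M j : ℕ) (F : CC) : CC := fun c => ∑ i ∈ range M, D (j, i) F c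

lemma del_eq_delj (N M : ℕ) (F : CC) :
    del (range N ×ˢ range M) F = ∑ j ∈ range N, delj M j F := by
  funext c
  simp only [del, sum_product, Finset.sum_apply, delj]

lemma rep_update_self (c : Cell) (j i : ℕ) (b : ℕ → ℤ) (a : ℤ) :
    update (rep c j b) (j, i) a = rep c j (update b i a) := by
  funext p
  by_cases hp : p = (j, i)
  · subst hp
    simp [rep]
  · rw [update_of_ne hp]
    simp only [rep]
    split_ifs with h
    · have : p.2 ≠ i := by
        intro h2
        apply hp
        ext <;> assumption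
      rw [update_of_ne this]
    · rfl

lemma rep_update_ne (c : Cell) {j j' : ℕ} (h : j' ≠ j) (i : ℕ) (b : ℕ → ℤ) (a : ℤ) :
    update (rep c j b) (j', i) a = rep (update c (j', i) a) j b := by
  funext p
  by_cases hp : p = (j', i)
  · subst hp
    simp [rep, h]
  · rw [update_of_ne hp]
    simp only [rep]
    split_ifs
    · rfl
    · rw [update_of_ne hp]

lemma delj_rep_self (M j : ℕ) (F : CC) (c : Cell) (b : ℕ → ℤ) :
    delj M j F (rep c j b) = del (range M) (fun b => F (rep c j b)) b := by
  refine sum_congr rfl fun i _ => ?_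
  simp only [D, rep_update_self]
  simp [rep]

lemma delj_rep_ne (M : ℕ) {j N : ℕ} (h : j ≠ N) (F : CC) (c : Cell) (φ : BC →+ ZMod 2) :
    φ (fun b => delj M j F (rep c N b)) = delj M j (fun c => φ (fun b => F (rep c N b))) c := by
  have e : (fun b => delj M j F (rep c N b)) = ∑ i ∈ range M, (fun b => D (j, i) F (rep c N b)) := by
    funext b
    simp only [delj, Finset.sum_apply]
  rw [e, map_sum]
  refine sum_congr rfl fun i _ => ?_
  simp only [D, rep_update_ne c h]
  have e2 : ∀ b : ℕ → ℤ, rep c N b (j, i) = c (j, i) := by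
    intro b
    simp [rep, h]
  simp only [e2]
  split_ifs
  · rw [← map_add]
    rfl
  · exact map_zero φ

/-- coboundary in a block as an additive map -/
def delH (M : ℕ) : BC →+ BC where
  toFun := del (range M)
  map_zero' := del_zero _
  map_add' := del_add _

lemma delH_apply (M : ℕ) (F : BC) : delH M F = del (range M) F := rfl

lemma W_delj (M : ℕ) (Tf : ℕ → (BC →+ ZMod 2)) (x0 : Cell) {j : ℕ} :
    ∀ N, j < N → ∀ F : CC, W Tf x0 N (delj M j F) =
      W (update Tf j ((Tf j).comp (delH M))) x0 N F := by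
  intro N
  induction N with
  | zero => intro h; omega
  | succ N ih =>
    intro h F
    rw [W_succ, W_succ]
    by_cases hj : j = N
    · subst hj
      rw [W_update_ge, update_self]
      congr 1
      funext c
      simp only [delj_rep_self]
      rfl
    · rw [update_of_ne (Ne.symm hj), ← ih (by omega)]
      congr 1
      funext c
      exact delj_rep_ne M hj F c (Tf N)

lemma W_add (Tf : ℕ → (BC →+ ZMod 2)) (x0 : Cell) {j : ℕ} (φ ψ : BC →+ ZMod 2) :
    ∀ N, j < N → ∀ F : CC, W (update Tf j (φ + ψ)) x0 N F =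
      W (update Tf j φ) x0 N F + W (update Tf j ψ) x0 N F := by
  intro N
  induction N with
  | zero => intro h; omega
  | succ N ih =>
    intro h F
    rw [W_succ, W_succ, W_succ]
    by_cases hj : j = N
    · subst hj
      rw [W_update_ge, W_update_ge, W_update_ge, update_self, update_self, update_self, ← map_add]
      rfl
    · rw [update_of_ne (Ne.symm hj), update_of_ne (Ne.symm hj), update_of_ne (Ne.symm hj),
        ih (by omega)]

lemma W_upd_zero (Tf : ℕ → (BC →+ ZMod 2)) (x0 : Cell) {j N : ℕ} (h : j < N) (F : CC) :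
    W (update Tf j 0) x0 N F = 0 := by
  have := W_add Tf x0 (j := j) 0 0 N h F
  rw [add_zero] at this
  have h2 := CharTwo.add_self_eq_zero (W (update Tf j 0) x0 N F)
  rw [h2] at this
  exact this

lemma flip_rep_self (c : Cell) (j : ℕ) (b : ℕ → ℤ) : flip j (rep c j b) = rep c j (-b) := by
  funext p
  simp only [flip, fl, rep]
  split_ifs <;> rfl

lemma flip_rep_ne (c : Cell) {j N : ℕ} (h : j ≠ N) (b : ℕ → ℤ) :
    flip j (rep c N b) = rep (flip j c) N b := by
  funext p
  simp only [flip, fl, rep]
  split_ifs with h1 h2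
  · exact absurd (h1.symm.trans h2) h
  · rfl
  · rfl
  · rfl

lemma W_ng (Tf : ℕ → (BC →+ ZMod 2)) (x0 : Cell) {j : ℕ} (φ : BC →+ ZMod 2) :
    ∀ N, j < N → ∀ F : CC, W (update Tf j (φ.comp ng)) x0 N F =
      W (update Tf j φ) x0 N (fun c => F (flip j c)) := by
  intro N
  induction N with
  | zero => intro h; omega
  | succ N ih =>
    intro h F
    rw [W_succ, W_succ]
    by_cases hj : j = N
    · subst hj
      rw [W_update_ge, W_update_ge, update_self, update_self]
      congr 1
      funext c
      simp only [flip_rep_self]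
      rfl
    · rw [update_of_ne (Ne.symm hj), update_of_ne (Ne.symm hj), ih (by omega)]
      congr 1
      funext c
      simp only [flip_rep_ne _ hj]

/-- good cells of one block -/
def GB (L m : ℕ) (b : ℕ → ℤ) : Prop := Cub L (m + 1) b ∧ ∃ i, i < m + 1 ∧ |b i| = 2 * L

/-- good cells of the product -/
def Good (L : ℕ) (m : ℕ → ℕ) (c : Cell) : Prop := ∀ j, GB L (m j) (blk c j)

lemma blk_rep_self (c : Cell) (j : ℕ) (b : ℕ → ℤ) : blk (rep c j b) j = b := by
  funext i; simp [blk, rep]

lemma blk_rep_ne (c : Cell) {j j' : ℕ} (h : j' ≠ j) (b : ℕ → ℤ) :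
    blk (rep c j b) j' = blk c j' := by
  funext i; simp [blk, rep, h]

lemma Good.rep {L : ℕ} {m : ℕ → ℕ} {c : Cell} (hc : Good L m c) {j : ℕ} {b : ℕ → ℤ}
    (hb : GB L (m j) b) : Good L m (rep c j b) := by
  intro j'
  by_cases h : j' = j
  · subst h
    rw [blk_rep_self]
    exact hb
  · rw [blk_rep_ne c h]
    exact hc j'

lemma W_congr {L : ℕ} {m : ℕ → ℕ} (Tf : ℕ → (BC →+ ZMod 2)) {x0 : Cell} (hx0 : Good L m x0)
    (hT : ∀ j, ∀ F G : BC, (∀ b, GB L (m j) b → F b = G b) → Tf j F = Tf j G) :
    ∀ N, ∀ F G : CC, (∀ c, Good L m c → F c = G c) → W Tf x0 N F = W Tf x0 N G := by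
  intro N
  induction N with
  | zero =>
    intro F G h
    exact h x0 hx0
  | succ N ih =>
    intro F G h
    rw [W_succ, W_succ]
    refine ih _ _ fun c hc => hT N _ _ fun b hb => h _ (hc.rep hb)

lemma T_congr' {L n m : ℕ} (hnm : n ≤ m) (F G : BC) (h : ∀ b, GB L m b → F b = G b) :
    T L n F = T L n G := by
  refine T_congr L n F G fun b hb ⟨i, hi, hbi⟩ => h b ⟨⟨hb.1, fun k hk => hb.2 k (by omega)⟩, i, by omega, hbi⟩

lemma blk_update_self (c : Cell) (j i : ℕ) (a : ℤ) :
    blk (update c (j, i) a) j = update (blk c j) i a := by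
  funext k
  by_cases h : k = i
  · subst h; simp [blk]
  · rw [update_of_ne h]
    simp only [blk]
    rw [update_of_ne]
    intro h2
    exact h (Prod.ext_iff.1 h2).2

lemma blk_update_ne (c : Cell) {j j' : ℕ} (h : j' ≠ j) (i : ℕ) (a : ℤ) :
    blk (update c (j, i) a) j' = blk c j' := by
  funext k
  simp only [blk]
  rw [update_of_ne]
  intro h2
  exact h (Prod.ext_iff.1 h2).1

lemma GB_face {L m : ℕ} {b : ℕ → ℤ} (hb : GB L m b) {i : ℕ} (ho : Odd (b i)) {a : ℤ}
    (ha : |a - b i| = 1) : GB L m (update b i a) := by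
  obtain ⟨⟨h1, h2⟩, k, hk, hbk⟩ := hb
  have hki : k ≠ i := by
    rintro rfl
    rw [← Int.natAbs_odd] at ho
    have : (b k).natAbs = 2 * L := by
      have := Int.abs_eq_natAbs (b k)
      omega
    rw [this] at ho
    exact (Nat.not_odd_iff_even.2 (even_two_mul L)) ho
  refine ⟨⟨fun k' => ?_, fun k' hk' => ?_⟩, k, hk, by rwa [update_of_ne hki]⟩
  · by_cases h : k' = i
    · subst h
      rw [update_self]
      have := h1 k'
      obtain ⟨r, hr⟩ := ho
      rw [abs_le] at this ⊢
      rcases abs_eq (by norm_num : (0 : ℤ) ≤ 1) |>.1 ha with h3 | h3 <;> constructor <;> omega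
    · rw [update_of_ne h]
      exact h1 k'
  · rw [update_of_ne]
    · exact h2 k' hk'
    · rintro rfl
      rw [h2 k' hk'] at ho
      exact absurd ho (by decide)

lemma Good_face {L : ℕ} {m : ℕ → ℕ} {c : Cell} (hc : Good L m c) (p : ℕ × ℕ) (ho : Odd (c p)) {a : ℤ}
    (ha : |a - c p| = 1) : Good L m (update c p a) := by
  obtain ⟨j, i⟩ := p
  intro j'
  by_cases h : j' = j
  · subst h
    rw [blk_update_self]
    exact GB_face (hc j') ho ha
  · rw [blk_update_ne c h]
    exact hc j'

lemma Her_Good (L : ℕ) (m : ℕ → ℕ) (s : Finset (ℕ × ℕ)) : Her s (Good L m) := by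
  intro c hc p _ ho
  exact ⟨Good_face hc p ho (by simp), Good_face hc p ho (by simp)⟩

/-- faces of a given good cell -/
def Fc (L : ℕ) (m : ℕ → ℕ) (c c' : Cell) : Prop :=
  Good L m c' ∧ ∀ p, |c' p - c p| ≤ 1 ∧ (Odd (c' p) → c' p = c p)

lemma Her_Fc (L : ℕ) (m : ℕ → ℕ) (c : Cell) (s : Finset (ℕ × ℕ)) : Her s (Fc L m c) := by
  intro c' ⟨hc1, hc2⟩ p _ ho
  have he := (hc2 p).2 ho
  refine ⟨⟨Good_face hc1 p ho (by simp), fun q => ?_⟩, ⟨Good_face hc1 p ho (by simp), fun q => ?_⟩⟩
  · by_cases h : q = p
    · subst h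
      rw [update_self, he]
      refine ⟨by simp, fun h3 => ?_⟩
      rw [he] at ho
      obtain ⟨r, hr⟩ := ho
      obtain ⟨r', hr'⟩ := h3
      omega
    · rw [update_of_ne h]
      exact hc2 q
  · by_cases h : q = p
    · subst h
      rw [update_self, he]
      refine ⟨by simp, fun h3 => ?_⟩
      rw [he] at ho
      obtain ⟨r, hr⟩ := ho
      obtain ⟨r', hr'⟩ := h3
      omega
    · rw [update_of_ne h]
      exact hc2 q

lemma W_one (Tf : ℕ → (BC →+ ZMod 2)) (x0 : Cell) :
    ∀ N, W Tf x0 N (fun _ => 1) = ∏ j ∈ range N, Tf j (fun _ => 1) := by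
  intro N
  induction N with
  | zero => simp [W_zero]
  | succ N ih =>
    rw [W_succ, prod_range_succ, ← ih, mul_comm]
    have : ∀ v : ZMod 2, W Tf x0 N (fun _ => v) = v * W Tf x0 N (fun _ => 1) := by
      intro v
      have : v = 0 ∨ v = 1 := by revert v; decide
      rcases this with rfl | rfl
      · rw [zero_mul]
        exact map_zero _
      · rw [one_mul]
    exact this _

/-- number (mod 2) of ways to distribute the labels to the blocks -/
def cnt (N : ℕ) : List (ℕ → ZMod 2) → (ℕ → ℕ) → ZMod 2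
  | [], n => if ∀ j < N, n j = 0 then 1 else 0
  | χ :: l, n => ∑ j ∈ range N, if n j = 0 then 0 else χ j * cnt N l (update n j (n j - 1))

lemma cnt_vanish (N : ℕ) {j0 : ℕ} (hj0 : j0 < N) : ∀ (l : List (ℕ → ZMod 2)) (n : ℕ → ℕ),
    l.countP (fun χ => χ j0 ≠ 0) < n j0 → cnt N l n = 0 := by
  intro l
  induction l with
  | nil =>
    intro n hn
    simp only [List.countP_nil] at hn
    simp only [cnt]
    rw [if_neg]
    intro h
    have := h j0 hj0
    omega
  | cons χ l ih =>
    intro n hn
    simp only [cnt]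
    refine sum_eq_zero fun j hj => ?_
    split_ifs with h0
    · rfl
    · by_cases hjj : j = j0
      · subst hjj
        by_cases hχ : χ j = 0
        · rw [hχ, zero_mul]
        · rw [ih, mul_zero]
          rw [update_self]
          rw [List.countP_cons_of_pos (by simpa using hχ)] at hn
          omega
      · rw [ih, mul_zero]
        rw [update_of_ne (Ne.symm hjj)]
        refine lt_of_le_of_lt ?_ hn
        rw [List.countP_cons]
        exact Nat.le_add_right _ _

lemma cnt_tri {Λ : Type*} (N : ℕ) (χ : Λ → ℕ → ZMod 2) (top : Λ → ℕ) (h1 : ∀ x, χ x (top x) = 1)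
    (h2 : ∀ x j, top x < j → χ x j = 0) :
    ∀ (l : List Λ) (n : ℕ → ℕ), (∀ x ∈ l, top x < N) → l.Pairwise (fun x y => top y ≤ top x) →
      (∀ j < N, n j = l.countP (fun x => top x = j)) → cnt N (l.map χ) n = 1 := by
  intro l
  induction l with
  | nil =>
    intro n _ _ hn
    simp only [List.map_nil, cnt]
    rw [if_pos]
    intro j hj
    rw [hn j hj]
    rfl
  | cons x l ih =>
    intro n htop hpw hn
    rw [List.pairwise_cons] at hpw
    have htx : top x < N := htop x (List.mem_cons_self)
    have hnx : n (top x) = l.countP (fun y => top y = top x) + 1 := by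
      rw [hn _ htx, List.countP_cons_of_pos (by simp)]
    simp only [List.map_cons, cnt]
    rw [sum_eq_single (top x)]
    · rw [if_neg (by omega), h1, one_mul]
      refine ih _ (fun y hy => htop y (List.mem_cons_of_mem _ hy)) hpw.2 fun j hj => ?_
      by_cases h : j = top x
      · subst h
        rw [update_self, hnx]
        rfl
      · rw [update_of_ne h, hn j hj, List.countP_cons_of_neg]
        simpa using Ne.symm h
    · intro j _ hj
      split_ifs with h0
      · rfl
      · rcases lt_or_gt_of_ne hj with h | h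
        · rw [cnt_vanish N htx, mul_zero]
          rw [update_of_ne (Ne.symm hj), hnx, List.countP_map]
          refine Nat.lt_succ_of_le (List.countP_mono_left fun y hy h3 => ?_)
          simp only [Function.comp, decide_eq_true_eq] at h3 ⊢
          have h4 := hpw.1 y hy
          by_contra h5
          exact h3 (h2 y _ (lt_of_le_of_ne h4 h5))
        · rw [h2 x j h, zero_mul]
    · intro h
      exact absurd (mem_range.2 htx) h

/-- evaluation on the product of the upper halves of spheres -/
def Wn (L N : ℕ) (x0 : Cell) (n : ℕ → ℕ) : CC →+ ZMod 2 := W (fun j => T L (n j)) x0 N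

lemma Wn_rec {L N M : ℕ} {m : ℕ → ℕ} {x0 : Cell} (hx0 : Good L m x0) (hM : ∀ j < N, m j < M)
    {Λ : Type*} (l : Λ → CC) (χ : Λ → ℕ → ZMod 2)
    (hl : ∀ x, ∀ j < N, ∀ c, Good L m c → l x (flip j c) = l x c + χ x j) (x : Λ) (ls : List Λ)
    (n : ℕ → ℕ) (hn : ∀ j, n j ≤ m j) :
    Wn L N x0 n (Phi (range N ×ˢ range M) ((x :: ls).map l)) =
      ∑ j ∈ range N, if n j = 0 then 0 else
        χ x j * Wn L N x0 (update n j (n j - 1)) (Phi (range N ×ˢ range M) (ls.map l)) := by
  simp only [List.map_cons, Phi]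
  rw [del_eq_delj, map_sum]
  refine sum_congr rfl fun j hj => ?_
  rw [mem_range] at hj
  rw [Wn, W_delj M _ x0 N hj]
  have e : (T L (n j)).comp (delH M) = Z L (n j) := by
    ext F
    exact T_del L (n j) (lt_of_le_of_lt (hn j) (hM j hj)) F
  rw [e]
  split_ifs with h0
  · rw [h0]
    exact W_upd_zero _ x0 hj _
  · obtain ⟨k, hk⟩ := Nat.exists_eq_succ_of_ne_zero h0
    have e2 : Z L (n j) = T L k + (T L k).comp ng := by
      ext F
      rw [hk]
      exact Z_succ_eq L k F
    rw [e2, W_add _ x0 _ _ N hj, W_ng _ x0 _ N hj, ← map_add]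
    have e3 : update (fun j => T L (n j)) j (T L k) = fun j' => T L (update n j (n j - 1) j') := by
      funext j'
      by_cases h : j' = j
      · subst h
        rw [update_self, update_self, hk]
        rfl
      · rw [update_of_ne h, update_of_ne h]
    rw [e3]
    have hTf : ∀ j', ∀ F G : BC, (∀ b, GB L (m j') b → F b = G b) →
        T L (update n j (n j - 1) j') F = T L (update n j (n j - 1) j') G := by
      intro j' F G hFG
      refine T_congr' ?_ F G hFG
      by_cases h : j' = j
      · subst h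
        rw [update_self]
        have := hn j'
        omega
      · rw [update_of_ne h]
        exact hn j'
    have hG := W_congr (fun j' => T L (update n j (n j - 1) j')) hx0 hTf N
      ((fun c => l x c * Phi (range N ×ˢ range M) (ls.map l) c) +
        fun c => l x (flip j c) * Phi (range N ×ˢ range M) (ls.map l) (flip j c))
      (fun c => χ x j * Phi (range N ×ˢ range M) (ls.map l) c) (fun c hc => by
        have h4 : Phi (range N ×ˢ range M) (ls.map l) (flip j c) =
            Phi (range N ×ˢ range M) (ls.map l) c := by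
          refine Phi_fl _ (Her_Good L m _) _ _ ?_ c hc
          intro l' hl'
          obtain ⟨y, _, rfl⟩ := List.mem_map.1 hl'
          exact ⟨χ y j, fun c hc => hl y j hj c hc⟩
        simp only [Pi.add_apply]
        rw [h4, hl x j hj c hc]
        have h5 := CharTwo.add_self_eq_zero (l x c * Phi (range N ×ˢ range M) (ls.map l) c)
        linear_combination h5)
    rw [hG, Wn]
    have : χ x j = 0 ∨ χ x j = 1 := by
      generalize χ x j = v
      revert v
      decide
    rcases this with h | h
    · rw [h]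
      simp only [zero_mul]
      exact map_zero _
    · rw [h]
      simp only [one_mul]

lemma Wn_eq_cnt {L N M : ℕ} {m : ℕ → ℕ} {x0 : Cell} (hx0 : Good L m x0) (hM : ∀ j < N, m j < M)
    {Λ : Type*} (l : Λ → CC) (χ : Λ → ℕ → ZMod 2)
    (hl : ∀ x, ∀ j < N, ∀ c, Good L m c → l x (flip j c) = l x c + χ x j) :
    ∀ (ls : List Λ) (n : ℕ → ℕ), (∀ j, n j ≤ m j) →
      Wn L N x0 n (Phi (range N ×ˢ range M) (ls.map l)) = cnt N (ls.map χ) n := by
  intro ls
  induction ls with
  | nil =>
    intro n hn
    simp only [List.map_nil, Phi, cnt]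
    rw [Wn, W_one]
    split_ifs with h
    · refine prod_eq_one fun j hj => ?_
      rw [h j (mem_range.1 hj)]
      exact T_zero_one L
    · push Not at h
      obtain ⟨j, hj, hj2⟩ := h
      refine prod_eq_zero (mem_range.2 hj) ?_
      obtain ⟨k, hk⟩ := Nat.exists_eq_succ_of_ne_zero hj2
      rw [hk]
      exact T_succ_one L k
  | cons x ls ih =>
    intro n hn
    rw [Wn_rec hx0 hM l χ hl x ls n hn]
    simp only [List.map_cons, cnt]
    refine sum_congr rfl fun j hj => ?_
    split_ifs with h0
    · rfl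
    · rw [ih]
      intro j'
      by_cases h : j' = j
      · subst h
        rw [update_self]
        have := hn j'
        omega
      · rw [update_of_ne h]
        exact hn j'

/-- combinatorial core: some good cell sees both values of every label on its faces -/
theorem exists_cell {L N : ℕ} {m : ℕ → ℕ} {x0 : Cell} (hx0 : Good L m x0)
    {Λ : Type*} (l : Λ → CC) (χ : Λ → ℕ → ZMod 2)
    (hl : ∀ x, ∀ j < N, ∀ c, Good L m c → l x (flip j c) = l x c + χ x j)
    (ls : List Λ) (hcnt : cnt N (ls.map χ) m = 1) :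
    ∃ c, Good L m c ∧ ∀ x ∈ ls, ∀ v : ZMod 2, ∃ c', Fc L m c c' ∧ l x c' = v := by
  by_contra hcon
  push Not at hcon
  obtain ⟨M, hM⟩ : ∃ M, ∀ j < N, m j < M := by
    refine ⟨∑ j ∈ range N, m j + 1, fun j hj => ?_⟩
    exact Nat.lt_succ_of_le (single_le_sum (f := m) (fun _ _ => Nat.zero_le _) (mem_range.2 hj))
  have key := Wn_eq_cnt hx0 hM l χ hl ls m (fun _ => le_rfl)
  rw [hcnt] at key
  have h0 : Wn L N x0 m (Phi (range N ×ˢ range M) (ls.map l)) = Wn L N x0 m 0 := by
    refine W_congr _ hx0 (fun j F G h => T_congr' le_rfl F G h) N _ _ fun c hc => ?_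
    obtain ⟨x, hx, v, hv⟩ := hcon c hc
    have hself : Fc L m c c := ⟨hc, fun p => ⟨by simp, fun _ => rfl⟩⟩
    refine Phi_const _ (Her_Fc L m c _) (l x) (v + 1) ?_ _ (List.mem_map_of_mem hx) c hself
    intro c' hc'
    have h1 := hv c' hc'
    have h3 : ∀ w v : ZMod 2, w ≠ v → w = v + 1 := by decide
    exact h3 _ _ h1
  rw [h0, map_zero] at key
  exact absurd key (by decide)

end Pool.Agent.Helper20.Glimm
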