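import Pool.Agent.Helper20.Glimm.Multi

/-!
A product of (cubical) spheres and a Borsuk-Ulam theorem for it.
-/

open Finset Function Filter Topology

namespace Pool.Agent.Helper20.Glimm

/-- the product of the boundaries of the cubes `[-1,1]^(m j + 1)` -/
def Ysub (m : ℕ → ℕ) : Set (ℕ × ℕ → ℝ) :=
  {y | ∀ j, (∀ i, |y (j, i)| ≤ 1) ∧ (∃ i, i < m j + 1 ∧ |y (j, i)| = 1) ∧
    ∀ i, m j + 1 ≤ i → y (j, i) = 0}

/-- the product of spheres -/
abbrev Y (m : ℕ → ℕ) : Type := Ysub m

lemma isClosed_Ysub (m : ℕ → ℕ) : IsClosed (Ysub m) := by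
  have h : Ysub m = ⋂ j, ({y | ∀ i, |y (j, i)| ≤ 1} ∩
      ((⋃ i ∈ range (m j + 1), {y : ℕ × ℕ → ℝ | |y (j, i)| = 1}) ∩
      {y | ∀ i, m j + 1 ≤ i → y (j, i) = 0})) := by
    ext y
    simp [Ysub]
  rw [h]
  refine isClosed_iInter fun j => IsClosed.inter ?_ (IsClosed.inter ?_ ?_)
  · simp only [Set.ofPred_forall]
    exact isClosed_iInter fun i => isClosed_le (by fun_prop) continuous_const
  · refine Set.Finite.isClosed_biUnion (Finset.finite_toSet (range (m j + 1))) fun i _ => ?_
    exact isClosed_eq (by fun_prop) continuous_const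
  · simp only [Set.ofPred_forall]
    exact isClosed_iInter fun i => isClosed_iInter fun _ => isClosed_eq (by fun_prop) continuous_const

instance (m : ℕ → ℕ) : CompactSpace (Y m) := by
  refine isCompact_iff_compactSpace.1 ?_
  have hc : IsCompact (Set.pi Set.univ (fun _ : ℕ × ℕ => Set.Icc (-1 : ℝ) 1)) :=
    isCompact_univ_pi fun _ => isCompact_Icc
  refine hc.of_isClosed_subset (isClosed_Ysub m) fun y hy => ?_
  rw [Set.mem_univ_pi]
  rintro ⟨j, i⟩
  exact abs_le.1 ((hy j).1 i)

/-- change the sign of the block `j` -/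
def flipY {m : ℕ → ℕ} (j : ℕ) (y : Y m) : Y m :=
  ⟨fun p => if p.1 = j then - y.1 p else y.1 p, by
    intro j'
    obtain ⟨h1, ⟨i, hi, h2⟩, h3⟩ := y.2 j'
    refine ⟨fun i => ?_, ⟨i, hi, ?_⟩, fun i hi => ?_⟩
    · simp only
      split_ifs
      · rw [abs_neg]; exact h1 i
      · exact h1 i
    · simp only
      split_ifs
      · rw [abs_neg]; exact h2
      · exact h2
    · simp only
      split_ifs
      · rw [h3 i hi, neg_zero]
      · exact h3 i hi⟩

lemma flipY_apply {m : ℕ → ℕ} (j : ℕ) (y : Y m) (p : ℕ × ℕ) :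
    (flipY j y).1 p = if p.1 = j then - y.1 p else y.1 p := rfl

lemma continuous_flipY {m : ℕ → ℕ} (j : ℕ) : Continuous (flipY j : Y m → Y m) := by
  refine Continuous.subtype_mk (continuous_pi fun p => ?_) _
  have hc : Continuous (fun y : Y m => y.1 p) := (continuous_apply p).comp continuous_subtype_val
  by_cases h : p.1 = j
  · simp only [h, if_true]
    exact hc.neg
  · simp only [h, if_false]
    exact hc

/-- coordinates of the base point of a cell -/
noncomputable def ptv (L : ℕ) (c : Cell) : ℕ × ℕ → ℝ := fun p => (c p : ℝ) / (2 * L)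

lemma ptv_mem {L : ℕ} (hL : 0 < L) {m : ℕ → ℕ} {c : Cell} (hc : Good L m c) : ptv L c ∈ Ysub m := by
  intro j
  obtain ⟨⟨h1, h2⟩, i, hi, hbi⟩ := hc j
  simp only [blk] at h1 h2 hbi
  have hL' : (0 : ℝ) < 2 * L := by positivity
  refine ⟨fun i => ?_, ⟨i, hi, ?_⟩, fun i hi => ?_⟩
  · simp only [ptv, abs_div, abs_of_pos hL']
    rw [div_le_one hL']
    have := h1 i
    have h3 : ((|c (j, i)| : ℤ) : ℝ) ≤ ((2 * L : ℤ) : ℝ) := by exact_mod_cast this
    push_cast at h3
    exact h3
  · simp only [ptv, abs_div, abs_of_pos hL']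
    rw [div_eq_one_iff_eq hL'.ne']
    have h3 : ((|c (j, i)| : ℤ) : ℝ) = ((2 * L : ℤ) : ℝ) := by exact_mod_cast hbi
    push_cast at h3
    exact h3
  · simp only [ptv]
    rw [h2 i hi]
    simp

/-- base cell -/
def x0 (L : ℕ) : Cell := fun p => if p.2 = 0 then 2 * L else 0

lemma good_x0 (L : ℕ) (m : ℕ → ℕ) : Good L m (x0 L) := by
  intro j
  refine ⟨⟨fun i => ?_, fun i hi => ?_⟩, 0, by omega, ?_⟩
  · simp only [blk, x0]
    split_ifs
    · rw [abs_two_mul]
    · simp
  · simp only [blk, x0]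
    rw [if_neg (by omega)]
  · simp only [blk, x0, if_true]
    exact abs_two_mul L

lemma good_flip {L : ℕ} {m : ℕ → ℕ} {c : Cell} (hc : Good L m c) (j : ℕ) : Good L m (flip j c) := by
  intro j'
  obtain ⟨⟨h1, h2⟩, i, hi, hbi⟩ := hc j'
  simp only [blk] at h1 h2 hbi
  refine ⟨⟨fun i => ?_, fun i hi => ?_⟩, i, hi, ?_⟩
  · simp only [blk, flip, fl]
    split_ifs
    · rw [abs_neg]; exact h1 i
    · exact h1 i
  · simp only [blk, flip, fl]
    split_ifs
    · rw [h2 i hi, neg_zero]
    · exact h2 i hi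
  · simp only [blk, flip, fl]
    split_ifs
    · rw [abs_neg]; exact hbi
    · exact hbi

/-- base point of a good cell -/
noncomputable def pt {m : ℕ → ℕ} (L : ℕ) (y0 : Y m) (c : Cell) : Y m :=
  open Classical in if h : ptv L c ∈ Ysub m then ⟨ptv L c, h⟩ else y0

lemma pt_val {L : ℕ} (hL : 0 < L) {m : ℕ → ℕ} (y0 : Y m) {c : Cell} (hc : Good L m c) :
    (pt L y0 c).1 = ptv L c := by
  rw [pt, dif_pos (ptv_mem hL hc)]

lemma pt_flip {L : ℕ} (hL : 0 < L) {m : ℕ → ℕ} (y0 : Y m) {c : Cell} (hc : Good L m c) (j : ℕ) :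
    pt L y0 (flip j c) = flipY j (pt L y0 c) := by
  apply Subtype.ext
  funext p
  rw [flipY_apply, pt_val hL y0 hc, pt_val hL y0 (good_flip hc j)]
  simp only [ptv, flip, fl]
  split_ifs
  · push_cast; ring
  · rfl

/-- an odd function on non-zero integer vectors -/
noncomputable def tie (b : ℕ → ℤ) : ZMod 2 := open Classical in if WellOrderingRel b (-b) then 1 else 0

lemma tie_neg {b : ℕ → ℤ} (hb : b ≠ 0) : tie (-b) = tie b + 1 := by
  have hne : b ≠ -b := by
    intro h
    apply hb
    funext i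
    have := congrFun h i
    simp only [Pi.neg_apply, Pi.zero_apply] at this ⊢
    omega
  rcases trichotomous_of WellOrderingRel b (-b) with h | h | h
  · have h2 : ¬ WellOrderingRel (-b) b := fun h2 => asymm_of WellOrderingRel h h2
    simp only [tie, neg_neg, h, h2, if_true, if_false]
    decide
  · exact absurd h hne
  · have h2 : ¬ WellOrderingRel b (-b) := fun h2 => asymm_of WellOrderingRel h h2
    simp only [tie, neg_neg, h, h2, if_true, if_false]
    decide

/-- sign label -/
noncomputable def lab (t : ZMod 2) (r : ℝ) : ZMod 2 :=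
  open Classical in if 0 < r then 0 else if r < 0 then 1 else t

lemma lab_neg (t : ZMod 2) (r : ℝ) : lab (t + 1) (-r) = lab t r + 1 := by
  rcases lt_trichotomy r 0 with h | h | h
  · have h1 : ¬ 0 < r := by linarith
    simp only [lab, Left.neg_pos_iff, h, h1, if_true, if_false]
    decide
  · subst h
    simp [lab]
  · have h1 : ¬ r < 0 := by linarith
    simp only [lab, Left.neg_pos_iff, Left.neg_neg_iff, h, h1, if_true, if_false, zero_add]

lemma lab_zero {t : ZMod 2} {r : ℝ} (h : lab t r = 0) : 0 ≤ r := by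
  by_contra h2
  push Not at h2
  have h1 : ¬ 0 < r := by linarith
  simp only [lab, h2, h1, if_true, if_false] at h
  exact absurd h (by decide)

lemma lab_one {t : ZMod 2} {r : ℝ} (h : lab t r = 1) : r ≤ 0 := by
  by_contra h2
  push Not at h2
  simp only [lab, h2, if_true] at h
  exact absurd h (by decide)

theorem borsukUlam {m : ℕ → ℕ} (N : ℕ) {Λ : Type*} (f : Λ → Y m → ℝ) (hf : ∀ x, Continuous (f x))
    (χ : Λ → ℕ → ZMod 2)
    (hχ : ∀ x j y, f x (flipY j y) = if χ x j = 0 then f x y else - f x y)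
    (ls : List Λ) (hcnt : cnt N (ls.map χ) m = 1) : ∃ y, ∀ x ∈ ls, f x y = 0 := by
  classical
  let y0 : Y m := ⟨ptv 1 (x0 1), ptv_mem one_pos (good_x0 1 m)⟩
  have step : ∀ k : ℕ, ∃ c, Good (k + 1) m c ∧ ∀ x ∈ ls,
      (∃ c', Fc (k + 1) m c c' ∧ 0 ≤ f x (pt (k + 1) y0 c')) ∧
      (∃ c', Fc (k + 1) m c c' ∧ f x (pt (k + 1) y0 c') ≤ 0) := by
    intro k
    obtain ⟨c, hc, h⟩ := exists_cell (L := k + 1) (N := N) (good_x0 (k + 1) m)
      (fun x c => lab (∑ j ∈ range N, χ x j * tie (blk c j)) (f x (pt (k + 1) y0 c))) χ (by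
        intro x j hj c hc
        rw [pt_flip k.succ_pos y0 hc, hχ]
        have h2 : ∑ j' ∈ range N, χ x j' * tie (blk (flip j c) j') =
            (∑ j' ∈ range N, χ x j' * tie (blk c j')) + χ x j := by
          have h3 : ∀ j' ∈ range N, χ x j' * tie (blk (flip j c) j') =
              χ x j' * tie (blk c j') + if j' = j then χ x j else 0 := by
            intro j' _
            split_ifs with h
            · subst h
              have h4 : blk (flip j' c) j' = - blk c j' := by
                funext i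
                simp [blk, flip, fl]
              rw [h4, tie_neg, mul_add, mul_one]
              intro h5
              obtain ⟨_, i, _, hi⟩ := hc j'
              rw [h5] at hi
              simp only [Pi.zero_apply, abs_zero] at hi
              push_cast at hi
              omega
            · rw [add_zero]
              congr 2
              funext i
              simp [blk, flip, fl, h]
          rw [sum_congr rfl h3, sum_add_distrib, sum_ite_eq' (range N) j, if_pos (mem_range.2 hj)]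
        rw [h2]
        have h5 : χ x j = 0 ∨ χ x j = 1 := by
          generalize χ x j = v
          revert v
          decide
        rcases h5 with h | h
        · rw [h, if_pos rfl, add_zero, add_zero]
        · rw [h, if_neg (by decide), lab_neg]) ls hcnt
    refine ⟨c, hc, fun x hx => ⟨?_, ?_⟩⟩
    · obtain ⟨c', hc', h'⟩ := h x hx 0
      exact ⟨c', hc', lab_zero h'⟩
    · obtain ⟨c', hc', h'⟩ := h x hx 1
      exact ⟨c', hc', lab_one h'⟩
  choose c hc hstep using step
  let 𝒰 := hyperfilter ℕ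
  have h𝒰 : (𝒰 : Filter ℕ) ≤ atTop := Nat.hyperfilter_le_atTop
  obtain ⟨y, -, hy⟩ := isCompact_univ.ultrafilter_le_nhds
    (𝒰.map (fun k => pt (k + 1) y0 (c k))) (by simp)
  have hy' : Tendsto (fun k => pt (k + 1) y0 (c k)) 𝒰 (𝓝 y) := hy
  have hlim : ∀ c' : ℕ → Cell, (∀ k, Fc (k + 1) m (c k) (c' k)) →
      Tendsto (fun k => pt (k + 1) y0 (c' k)) 𝒰 (𝓝 y) := by
    intro c' hc'
    rw [tendsto_subtype_rng] at hy' ⊢
    rw [tendsto_pi_nhds] at hy' ⊢
    intro p
    have h1 : Tendsto (fun k : ℕ => (pt (k + 1) y0 (c' k)).1 p - (pt (k + 1) y0 (c k)).1 p) 𝒰 (𝓝 0) := by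
      have h2 : Tendsto (fun k : ℕ => (1 : ℝ) / ((k : ℝ) + 1)) 𝒰 (𝓝 0) :=
        tendsto_one_div_add_atTop_nhds_zero_nat.mono_left h𝒰
      refine squeeze_zero_norm (fun k => ?_) h2
      rw [pt_val k.succ_pos y0 (hc' k).1, pt_val k.succ_pos y0 (hc k)]
      simp only [ptv]
      rw [← sub_div, Real.norm_eq_abs, abs_div]
      have h3 : |((c' k p : ℤ) : ℝ) - (c k p : ℤ)| ≤ 1 := by
        have := ((hc' k).2 p).1
        exact_mod_cast this
      have h4 : |(2 * ((k + 1 : ℕ) : ℝ))| = 2 * ((k : ℝ) + 1) := by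
        push_cast
        exact abs_of_pos (by positivity)
      rw [h4]
      have h5 : (0 : ℝ) < (k : ℝ) + 1 := by positivity
      refine div_le_div₀ zero_le_one h3 h5 (by linarith)
    have h6 := (hy' p).add h1
    simpa using h6
  refine ⟨y, fun x hx => le_antisymm ?_ ?_⟩
  · choose c' hc' hf' using fun k => (hstep k x hx).2
    exact le_of_tendsto (((hf x).tendsto y).comp (hlim c' hc')) (Eventually.of_forall hf')
  · choose c' hc' hf' using fun k => (hstep k x hx).1
    exact ge_of_tendsto (((hf x).tendsto y).comp (hlim c' hc')) (Eventually.of_forall hf')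

end Pool.Agent.Helper20.Glimm
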